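import Pool.Agent.Y377.IL.Stm

/-!
Derivations with rational eigenvalues on finite extensions.
-/

set_option autoImplicit false

namespace Pool.Agent.Y983.IL

open Pool.Agent.Y377.EL Pool.Agent.Y377.IL

theorem fexp_eq (F : Type) [Field F] [CharZero F] (q : ℚ) :
    fexp F q = PowerSeries.rescale (q : F) (PowerSeries.exp F) := by
  ext n
  simp [fexp, PowerSeries.coeff_rescale, PowerSeries.coeff_exp, div_eq_mul_inv]

theorem fexp_mul (F : Type) [Field F] [CharZero F] (q r : ℚ) :
    fexp F q * fexp F r = fexp F (q + r) := by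
  rw [fexp_eq, fexp_eq, fexp_eq, PowerSeries.exp_mul_exp_eq_exp_add]
  push_cast
  rfl

theorem fexp_zero (F : Type) [Field F] [CharZero F] : fexp F 0 = 1 := by
  ext n
  rw [fexp, PowerSeries.coeff_mk, PowerSeries.coeff_one]
  by_cases h : n = 0
  · subst h
    simp
  · rw [if_neg h, Rat.cast_zero, zero_pow h, zero_div]

/-- the exponential polynomials are linear combinations of exponentials -/
theorem mem_FEP {F : Type} [Field F] [CharZero F] {f : PowerSeries F} (hf : f ∈ FEP F) :
    ∃ c : ℚ →₀ F, f = c.sum fun q a => a • fexp F q := by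
  have h1 : f ∈ Submodule.span F (Set.range (fexp F)) := by
    have h2 : f ∈ Subalgebra.toSubmodule (FEP F) := hf
    unfold FEP at h2
    rw [Algebra.adjoin_eq_span] at h2
    refine Submodule.span_mono ?_ h2
    intro x hx
    refine Submonoid.closure_induction (motive := fun x _ => x ∈ Set.range (fexp F)) ?_ ?_ ?_ hx
    · rintro y ⟨q, rfl⟩
      exact ⟨q, rfl⟩
    · exact ⟨0, fexp_zero F⟩
    · rintro x y _ _ ⟨q, rfl⟩ ⟨r, rfl⟩
      exact ⟨q + r, (fexp_mul F q r).symm⟩
  obtain ⟨c, hc⟩ := Finsupp.mem_span_range_iff_exists_finsupp.1 h1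
  exact ⟨c, hc.symm⟩

variable {K : Type} [Field K] [Algebra ℂ K]

theorem charZ (K : Type) [Field K] [Algebra ℂ K] : CharZero K :=
  charZero_of_injective_algebraMap (algebraMap ℂ K).injective

/-- polynomials in the derivation preserve a stable subring -/
theorem aeval_mem {δ : Derivation ℂ K K} {S : Subalgebra ℂ K} (hS : Stab δ S)
    (P : Polynomial ℂ) {s : K} (hs : s ∈ S) : Polynomial.aeval (en δ) P s ∈ S := by
  have hpow : ∀ n : ℕ, (en δ ^ n) s ∈ S := by
    intro n
    induction n with
    | zero => simpa using hs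
    | succ n ih =>
      rw [pow_succ']
      exact hS _ ih
  rw [Polynomial.aeval_eq_sum_range, LinearMap.sum_apply]
  refine S.sum_mem fun i _ => ?_
  rw [LinearMap.smul_apply]
  exact S.smul_mem (hpow i) _

/-- polynomials in the derivation -/
theorem aeval_sum {δ : Derivation ℂ K K} {s : K} (c : ℚ →₀ K)
    (hc : ∀ n : ℕ, (en δ ^ n) s = ∑ q ∈ c.support, ((q : ℂ) ^ n) • c q) (P : Polynomial ℂ) :
    Polynomial.aeval (en δ) P s = ∑ q ∈ c.support, P.eval (q : ℂ) • c q := by
  rw [Polynomial.aeval_eq_sum_range, LinearMap.sum_apply]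
  have h1 : ∀ q : ℚ, P.eval (q : ℂ) • c q =
      ∑ n ∈ Finset.range (P.natDegree + 1), P.coeff n • (((q : ℂ) ^ n) • c q) := by
    intro q
    rw [Polynomial.eval_eq_sum_range, Finset.sum_smul]
    refine Finset.sum_congr rfl fun n _ => ?_
    rw [smul_smul]
  simp_rw [h1]
  rw [Finset.sum_comm]
  refine Finset.sum_congr rfl fun n _ => ?_
  rw [LinearMap.smul_apply, hc n, Finset.smul_sum]

/-- decomposition into eigenvectors -/
theorem decomp {δ : Derivation ℂ K K} {S : Subalgebra ℂ K} (hS : Stab δ S) {s : K} (hs : s ∈ S)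
    (c : ℚ →₀ K) (hc : ∀ n : ℕ, (en δ ^ n) s = ∑ q ∈ c.support, ((q : ℂ) ^ n) • c q) :
    s ∈ ⨆ q : ℚ, Subalgebra.toSubmodule S ⊓ (en δ).eigenspace (q : ℂ) := by
  have hinj : Set.InjOn (fun q : ℚ => (q : ℂ)) c.support := fun a _ b _ h => by
    have h' : (a : ℂ) = (b : ℂ) := h
    exact_mod_cast h'
  have hB : ∀ q ∈ c.support, ∀ R : Polynomial ℂ,
      Polynomial.aeval (en δ) (R * Lagrange.basis c.support (fun q : ℚ => (q : ℂ)) q) s =
        R.eval (q : ℂ) • c q := by
    intro q hq R
    rw [aeval_sum c hc, Finset.sum_eq_single q]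
    · rw [Polynomial.eval_mul, Lagrange.eval_basis_self hinj hq, mul_one]
    · intro r hr hrq
      rw [Polynomial.eval_mul, Lagrange.eval_basis_of_ne (v := fun q : ℚ => (q : ℂ)) hrq.symm hr,
        mul_zero, zero_smul]
    · intro h
      exact absurd hq h
  have h0 := hc 0
  have h1 : s = ∑ q ∈ c.support, c q := by
    simpa using h0
  rw [h1]
  refine Submodule.sum_mem _ fun q hq => Submodule.mem_iSup_of_mem q ⟨?_, ?_⟩
  · have h2 := hB q hq 1
    rw [Polynomial.eval_one, one_smul] at h2
    rw [← h2]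
    exact aeval_mem hS _ hs
  · have h2 := hB q hq 1
    have h3 := hB q hq Polynomial.X
    rw [Polynomial.eval_one, one_smul, one_mul] at h2
    rw [Polynomial.eval_X, map_mul, Polynomial.aeval_X, Module.End.mul_apply, h2] at h3
    exact Module.End.mem_eigenspace_iff.2 h3

/-- **derivations with rational eigenvalues on finite extensions** -/
theorem t_APE : S_EXP → S_PER → S_APE := by
  intro hEXP hPER K _ _ δ B S hBS hfg hB hS hb
  have hK : CharZero K := charZ K
  obtain ⟨e, he, hd⟩ := hEXP K δ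
  -- the exponential of the elements of `B`
  have heB : ∀ b ∈ B, e b ∈ FEP K := by
    intro b hbB
    refine Submodule.iSup_induction (fun q : ℚ => Subalgebra.toSubmodule B ⊓
      (en δ).eigenspace (q : ℂ)) (motive := fun x => e x ∈ FEP K) (hb b hbB) ?_ ?_ ?_
    · rintro q x ⟨_, hx⟩
      have hx' : en δ x = (q : ℂ) • x := Module.End.mem_eigenspace_iff.1 hx
      have hpow : ∀ n : ℕ, (en δ ^ n) x = ((q : ℂ) ^ n) • x := by
        intro n
        induction n with
        | zero => simp
        | succ n ih =>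
          rw [pow_succ', Module.End.mul_apply, ih, map_smul, hx', smul_smul, ← pow_succ]
      have h1 : e x = x • fexp K q := by
        rw [he]
        ext n
        rw [expD, PowerSeries.coeff_mk, PowerSeries.coeff_smul, fexp, PowerSeries.coeff_mk, hpow,
          Algebra.smul_def, map_pow, map_ratCast]
        ring
      rw [h1]
      exact (FEP K).smul_mem (Algebra.subset_adjoin ⟨q, rfl⟩) _
    · rw [map_zero]
      exact (FEP K).zero_mem
    · intro x y hx hy
      rw [map_add]
      exact (FEP K).add_mem hx hy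
  -- generators
  obtain ⟨N, hN, hNS⟩ := hfg
  obtain ⟨k, s, hs⟩ := Submodule.fg_iff_exists_fin_generating_family.1 hN
  have hsS : ∀ i, s i ∈ S := fun i => (hNS _).1 (hs ▸ Submodule.subset_span ⟨i, rfl⟩)
  have hex : ∀ x ∈ S, ∃ b : Fin k → B, ∑ j, b j • s j = x := by
    intro x hx
    have h1 := (hNS x).2 hx
    rw [← hs] at h1
    exact (Submodule.mem_span_range_iff_exists_fun B).1 h1
  choose! b hbs using hex
  have hes : ∀ x ∈ S, e x = ∑ j, e (b x j : K) * e (s j) := by
    intro x hx
    conv_lhs => rw [← hbs x hx]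
    rw [map_sum]
    refine Finset.sum_congr rfl fun j _ => ?_
    rw [Algebra.smul_def, map_mul]
    rfl
  -- integrality
  let S' : Subalgebra B K :=
    { carrier := {x | x ∈ S}
      mul_mem' := fun ha hb => S.mul_mem ha hb
      add_mem' := fun ha hb => S.add_mem ha hb
      algebraMap_mem' := fun r => hBS r.2 }
  have hS'N : Subalgebra.toSubmodule S' = N := by
    ext x
    exact (hNS x).symm
  have hint : ∀ i, IsIntegral B (s i) := fun i =>
    IsIntegral.of_mem_of_fg S' (by rw [hS'N]; exact hN) _ (hsS i)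
  let φ : B →+* FEP K := (e.toRingHom.comp B.toSubring.subtype).codRestrict (FEP K)
    (fun x => heB x x.2)
  have hint' : ∀ i, IsIntegral (FEP K) (e (s i)) := fun i =>
    IsIntegral.map_of_comp_eq φ e.toRingHom (by ext x; rfl) (hint i)
  have hFs : ∀ i, e (s i) ∈ FEP K := by
    refine hPER K k (fun i j => e (b (δ (s i)) j : K)) (fun i => e (s i))
      (fun i j => heB _ (b (δ (s i)) j).2) (fun i => ?_) hint'
    rw [hd]
    exact hes _ (hS _ (hsS i))
  intro x hx
  have hFx : e x ∈ FEP K := by
    rw [hes x hx]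
    exact (FEP K).sum_mem fun j _ => (FEP K).mul_mem (heB _ (b x j).2) (hFs j)
  obtain ⟨c, hc⟩ := mem_FEP hFx
  refine decomp hS hx c fun n => ?_
  have h1 := congrArg (PowerSeries.coeff n) hc
  rw [he, expD, PowerSeries.coeff_mk, Finsupp.sum, map_sum] at h1
  have hf : (n.factorial : K) ≠ 0 := by exact_mod_cast n.factorial_ne_zero
  rw [div_eq_iff hf, Finset.sum_mul] at h1
  rw [h1]
  refine Finset.sum_congr rfl fun q _ => ?_
  rw [PowerSeries.coeff_smul, fexp, PowerSeries.coeff_mk,
    Algebra.smul_def ((q : ℂ) ^ n) (c q), map_pow, map_ratCast, smul_eq_mul]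
  field_simp

end Pool.Agent.Y983.IL

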